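import Pool.Agent.H76.AB.Stm

set_option autoImplicit false

namespace H78.AB

open SimpleGraph H76.AB Finset

theorem t_PRUNE (hANC : S_ANC) : S_PRUNE := by
  classical
  intro m w q M hq
  by_cases hfin : {P | Valid m w P}.Finite
  swap
  · refine ⟨1, fun N g R hN hS => ?_⟩
    exact absurd (hANC m w N g R hN hS).2.2.2.2 hfin
  set VP : Finset (List ℕ) := hfin.toFinset with hVP
  have memVP : ∀ P, P ∈ VP ↔ Valid m w P := fun P => by rw [hVP]; exact hfin.mem_toFinset
  set W : ℕ := ∑ i ∈ range m, w i with hW
  have hWle : ∀ i < m, w i ≤ W := fun i hi =>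
    Finset.single_le_sum (f := w) (fun _ _ => Nat.zero_le _) (Finset.mem_range.mpr hi)
  set A : ℕ := Fintype.card (Fin q × (↥(VP ×ˢ range W) → Fin q)) with hA
  refine ⟨A * M * VP.card + 1, ?_⟩
  intro N g R hN hS col kap
  obtain ⟨ha, hb, hc, hd, -⟩ := hANC m w N g R (by omega) hS
  have hVfin : Finite R.V := hS.fin
  let _ : Fintype R.V := Fintype.ofFinite _
  set T0 : Finset R.V := univ.filter (fun x => R.node x = []) with hT0
  set ty : R.V → Fin q × (↥(VP ×ˢ range W) → Fin q) :=
    fun x => (kap x, fun z => col (anc R z.1.1 x) z.1.2) with hty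
  have hT0pos : 0 < T0.card := by
    obtain ⟨x, hx⟩ := hS.ne
    exact Finset.card_pos.mpr ⟨x, by simp [hT0, hx]⟩
  obtain ⟨x00, hx00⟩ := hS.ne
  obtain ⟨t, -, ht⟩ := Finset.exists_max_image univ
    (fun t => (T0.filter (fun x => ty x = t)).card) ⟨ty x00, mem_univ _⟩
  set Tt : Finset R.V := T0.filter (fun x => ty x = t) with hTt
  have hTtcard : T0.card ≤ A * Tt.card := by
    rw [Finset.card_eq_sum_card_fiberwise (f := ty) (t := univ) (fun x _ => mem_univ _)]
    refine (Finset.sum_le_card_nsmul _ _ Tt.card (fun b _ => ht b (mem_univ b))).trans ?_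
    rw [smul_eq_mul, Finset.card_univ]
  have hTtpos : 0 < Tt.card := by
    rcases Nat.eq_zero_or_pos Tt.card with h | h
    · rw [h] at hTtcard; omega
    · exact h
  have hnP : ∀ P, Valid m w P →
      T0.card = N ^ P.length * (univ.filter (fun u => R.node u = P)).card := by
    intro P hP
    have h1 := hc P hP
    rw [Set.ncard_eq_toFinset_card', Set.ncard_eq_toFinset_card'] at h1
    simp only [Set.toFinset_setOf] at h1
    exact h1
  set VP' : Finset (List ℕ) := VP.erase [] with hVP'
  set Sg : Finset R.V → ℕ := fun U =>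
    M * ∑ P ∈ VP', N ^ (P.length - 1) * (U.image (anc R P)).card with hSg
  have hNpos : 0 < N := by omega
  have hstart : Sg Tt < Tt.card := by
    have h1 : N * Sg Tt ≤ A * M * VP.card * Tt.card := by
      have h2 : N * Sg Tt = M * ∑ P ∈ VP', N * (N ^ (P.length - 1) * (Tt.image (anc R P)).card) := by
        rw [hSg]; simp only
        rw [← Finset.mul_sum]; ring
      rw [h2]
      have h3 : ∑ P ∈ VP', N * (N ^ (P.length - 1) * (Tt.image (anc R P)).card) ≤
          VP'.card • T0.card := by
        apply Finset.sum_le_card_nsmul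
        intro P hP
        rw [hVP', Finset.mem_erase, memVP] at hP
        obtain ⟨hP0, hPv⟩ := hP
        have hlen : 1 ≤ P.length := by
          rcases P with _ | ⟨a, P⟩
          · exact absurd rfl hP0
          · simp
        rw [hnP P hPv, ← mul_assoc, ← pow_succ', Nat.sub_add_cancel hlen]
        apply Nat.mul_le_mul_left
        apply Finset.card_le_card
        intro y hy
        rw [Finset.mem_image] at hy
        obtain ⟨x, hx, rfl⟩ := hy
        rw [hTt, Finset.mem_filter, hT0, Finset.mem_filter] at hx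
        rw [Finset.mem_filter]
        exact ⟨mem_univ _, ha P hPv x hx.1.2⟩
      rw [smul_eq_mul] at h3
      calc M * ∑ P ∈ VP', N * (N ^ (P.length - 1) * (Tt.image (anc R P)).card)
          ≤ M * (VP'.card * T0.card) := Nat.mul_le_mul_left _ h3
        _ ≤ M * (VP.card * (A * Tt.card)) := by
            apply Nat.mul_le_mul_left
            exact Nat.mul_le_mul (Finset.card_le_card (Finset.erase_subset _ _)) hTtcard
        _ = A * M * VP.card * Tt.card := by ring
    have h4 : N * Sg Tt < N * Tt.card := by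
      refine lt_of_le_of_lt h1 ?_
      exact Nat.mul_lt_mul_of_pos_right (by omega) hTtpos
    exact Nat.lt_of_mul_lt_mul_left h4
  obtain ⟨U, hUmem, hUmin⟩ := Finset.exists_min_image
    (Tt.powerset.filter (fun U => Sg U < U.card)) Finset.card
    ⟨Tt, by rw [Finset.mem_filter, Finset.mem_powerset]; exact ⟨subset_rfl, hstart⟩⟩
  rw [Finset.mem_filter, Finset.mem_powerset] at hUmem
  obtain ⟨hUsub, hUlt⟩ := hUmem
  have hUprop : ∀ x ∈ U, R.node x = [] ∧ ty x = t := by
    intro x hx
    have := hUsub hx
    rw [hTt, Finset.mem_filter, hT0, Finset.mem_filter] at this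
    exact ⟨this.1.2, this.2⟩
  obtain ⟨x0, hx0⟩ : U.Nonempty := by
    rw [← Finset.card_pos]; omega
  set K : Set R.V := {y | ∃ P, Valid m w P ∧ ∃ x ∈ U, anc R P x = y} with hK
  have hKP : ∀ y ∈ K, Valid m w (R.node y) ∧ ∃ x ∈ U, anc R (R.node y) x = y := by
    rintro y ⟨P, hP, x, hx, rfl⟩
    rw [ha P hP x (hUprop x hx).1]
    exact ⟨hP, x, hx, rfl⟩
  refine ⟨K, fun P p => col (anc R P x0) p, kap x0, ?_, ?_, ?_, ?_⟩
  · exact ⟨x0, ⟨[], trivial, x0, hx0, rfl⟩, (hUprop x0 hx0).1⟩
  · intro y hy hlev p hp
    obtain ⟨hval, x, hx, hxy⟩ := hKP y hy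
    have hlev' : (R.node y).length < m := hlev
    have hp' : p < w (R.node y).length := hp
    refine ⟨⟨p :: R.node y, ⟨hlev', hp', hval⟩, x, hx, ?_⟩, ?_⟩
    · change R.par (anc R (R.node y) x) p = R.par y p
      rw [hxy]
    · have h1 : ty x = ty x0 := by rw [(hUprop x hx).2, (hUprop x0 hx0).2]
      have h2 := congrArg Prod.snd h1
      have hz : (R.node y, p) ∈ VP ×ˢ range W := by
        rw [Finset.mem_product, memVP, Finset.mem_range]
        exact ⟨hval, lt_of_lt_of_le hp' (hWle _ hlev')⟩
      have h3 := congrFun h2 ⟨(R.node y, p), hz⟩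
      simp only [hty] at h3
      rw [hxy] at h3
      exact h3
  · intro y hy hnode
    obtain ⟨hval, x, hx, hxy⟩ := hKP y hy
    rw [hnode] at hxy
    have hxy' : x = y := hxy
    rw [← hxy']
    have h1 : ty x = ty x0 := by rw [(hUprop x hx).2, (hUprop x0 hx0).2]
    exact congrArg Prod.fst h1
  · intro u hu p P hnode
    by_contra hcon
    push Not at hcon
    obtain ⟨hval, x1, hx1, hxu⟩ := hKP u hu
    rw [hnode] at hval hxu
    obtain ⟨hlen, hpw, hvalP⟩ := hval
    have hval' : Valid m w (p :: P) := ⟨hlen, hpw, hvalP⟩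
    set U' : Finset R.V := U.filter (fun x => ¬ anc R (p :: P) x = u) with hU'
    set Rm : Finset R.V := U.filter (fun x => anc R (p :: P) x = u) with hRm
    have hcardU : Rm.card + U'.card = U.card := Finset.card_filter_add_card_filter_not _
    set C : Finset R.V := univ.filter (fun x => x ∈ K ∧ R.node x = P ∧ R.par x p = u) with hC
    have hCcard : C.card < M := by
      have : {x | x ∈ K ∧ R.node x = P ∧ R.par x p = u}.ncard = C.card := by
        rw [Set.ncard_eq_toFinset_card', Set.toFinset_setOf]
      omega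
    have hRmle : Rm.card ≤ M * N ^ P.length := by
      have hsub : Rm ⊆ C.biUnion (fun c => univ.filter (fun x => R.node x = [] ∧ anc R P x = c)) := by
        intro x hx
        rw [hRm, Finset.mem_filter] at hx
        rw [Finset.mem_biUnion]
        refine ⟨anc R P x, ?_, ?_⟩
        · rw [hC, Finset.mem_filter]
          exact ⟨mem_univ _, ⟨P, hvalP, x, hx.1, rfl⟩, ha P hvalP x (hUprop x hx.1).1, hx.2⟩
        · rw [Finset.mem_filter]
          exact ⟨mem_univ _, (hUprop x hx.1).1, rfl⟩
      refine (Finset.card_le_card hsub).trans (Finset.card_biUnion_le.trans ?_)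
      have h1 : ∑ c ∈ C, (univ.filter (fun x => R.node x = [] ∧ anc R P x = c)).card ≤
          C.card • N ^ P.length := by
        apply Finset.sum_le_card_nsmul
        intro c hc'
        rw [hC, Finset.mem_filter] at hc'
        have h2 := hb P hvalP c hc'.2.2.1
        rw [Set.ncard_eq_toFinset_card', Set.toFinset_setOf] at h2
        exact h2.le
      refine h1.trans ?_
      rw [smul_eq_mul]
      exact Nat.mul_le_mul_right _ hCcard.le
    have hx1Rm : x1 ∈ Rm := by rw [hRm, Finset.mem_filter]; exact ⟨hx1, hxu⟩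
    have hRmpos : 0 < Rm.card := Finset.card_pos.mpr ⟨x1, hx1Rm⟩
    have hQ0 : (p :: P) ∈ VP' := by
      rw [hVP', Finset.mem_erase, memVP]
      exact ⟨List.cons_ne_nil _ _, hval'⟩
    have hU'sub : U' ⊆ U := Finset.filter_subset _ _
    have hSgle : Sg U' + M * N ^ P.length ≤ Sg U := by
      rw [hSg]
      simp only
      rw [← Finset.add_sum_erase _ _ hQ0, ← Finset.add_sum_erase VP' _ hQ0]
      have h1 : ∑ Q ∈ VP'.erase (p :: P), N ^ (Q.length - 1) * (U'.image (anc R Q)).card ≤
          ∑ Q ∈ VP'.erase (p :: P), N ^ (Q.length - 1) * (U.image (anc R Q)).card := by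
        apply Finset.sum_le_sum
        intro Q _
        exact Nat.mul_le_mul_left _ (Finset.card_le_card (Finset.image_subset_image hU'sub))
      have h2 : (U'.image (anc R (p :: P))).card + 1 ≤ (U.image (anc R (p :: P))).card := by
        apply Finset.card_lt_card
        rw [Finset.ssubset_iff_of_subset (Finset.image_subset_image hU'sub)]
        refine ⟨u, Finset.mem_image.mpr ⟨x1, hx1, hxu⟩, ?_⟩
        intro hmem
        obtain ⟨x, hx, hxu'⟩ := Finset.mem_image.mp hmem
        rw [hU', Finset.mem_filter] at hx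
        exact hx.2 hxu'
      have h3 : (p :: P).length - 1 = P.length := by simp
      rw [h3]
      have h4 := Nat.mul_le_mul_left (N ^ P.length) h2
      rw [← Nat.mul_add]
      apply Nat.mul_le_mul_left
      rw [Nat.mul_add, Nat.mul_one] at h4
      omega
    have hU'lt : Sg U' < U'.card := by omega
    have hmin := hUmin U' (by
      rw [Finset.mem_filter, Finset.mem_powerset]
      exact ⟨hU'sub.trans hUsub, hU'lt⟩)
    omega

end H78.AB
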