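import Pool.Agent.H76.AB.Stm

set_option autoImplicit false

namespace H78.AB

open SimpleGraph H76.AB

theorem t_TFREE (hSEQ1 : S_SEQ1) : S_TFREE := by
  classical
  intro W _ T q s N g D R H z B C col hT hns hs0 hEmb hRep hS hHG hpend hcol hBC hCup hCuniq
  set m : ℕ := s.length with hm
  set w : ℕ → ℕ := fun i => q * s.getD i 0 with hw
  have hm1 : 1 ≤ m := by
    rw [hm]
    exact List.length_pos_iff.mpr hs0
  have hnode : ∀ x p y, R.Up m w x p y → R.node y = p :: R.node x := by
    intro x p y h
    have := hS.hpar x p h.1 h.2.1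
    rw [h.2.2] at this
    exact this
  have hlev : ∀ x p y, R.Up m w x p y → R.lev y = R.lev x + 1 := by
    intro x p y h
    unfold Raw.lev
    rw [hnode x p y h]
    rfl
  -- the colouring
  set c : Sym2 (R.V ⊕ R.V × Fin D) → Fin q := fun e =>
    if h : ∃ xp : R.V × ℕ, ∃ y, e = s(Sum.inl xp.1, Sum.inl y) ∧ R.Up m w xp.1 xp.2 y then
      col h.choose.1 h.choose.2 else z with hc
  have hc1 : ∀ x p y, R.Up m w x p y → c s(Sum.inl x, Sum.inl y) = col x p := by
    intro x p y hup
    have key : ∀ xp : R.V × ℕ, (∃ y', (s(Sum.inl x, Sum.inl y) : Sym2 (R.V ⊕ R.V × Fin D)) =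
        s(Sum.inl xp.1, Sum.inl y') ∧ R.Up m w xp.1 xp.2 y') → col xp.1 xp.2 = col x p := by
      rintro ⟨x', p'⟩ ⟨y', he, hup'⟩
      rw [Sym2.eq_iff] at he
      rcases he with ⟨h1, h2⟩ | ⟨h1, h2⟩
      · have h1' : x = x' := Sum.inl_injective h1
        have h2' : y = y' := Sum.inl_injective h2
        subst h1'
        subst h2'
        have e1 := hnode _ _ _ hup
        have e2 := hnode _ _ _ hup'
        rw [e1] at e2
        have : p = p' := (List.cons.inj e2).1
        subst this
        rfl
      · have h1' : x = y' := Sum.inl_injective h1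
        have h2' : y = x' := Sum.inl_injective h2
        subst h1'
        subst h2'
        have e1 : R.lev y = R.lev x + 1 := hlev _ _ _ hup
        have e2 : R.lev x = R.lev y + 1 := hlev _ _ _ hup'
        omega
    have h : ∃ xp : R.V × ℕ, ∃ y', (s(Sum.inl x, Sum.inl y) : Sym2 (R.V ⊕ R.V × Fin D)) =
        s(Sum.inl xp.1, Sum.inl y') ∧ R.Up m w xp.1 xp.2 y' := ⟨(x, p), y, rfl, hup⟩
    rw [hc]
    simp only
    rw [dif_pos h]
    exact key _ h.choose_spec
  have hc2 : ∀ a v, c s(a, Sum.inr v) = z := by
    intro a v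
    rw [hc]
    simp only
    rw [dif_neg]
    rintro ⟨xp, y, he, -⟩
    rw [Sym2.eq_iff] at he
    rcases he with ⟨-, h2⟩ | ⟨-, h2⟩
    · cases h2
    · cases h2
  refine ⟨c, ?_⟩
  rintro ⟨j, f, hfinj, hf⟩
  by_cases hpen : ∃ x1 v, f x1 = Sum.inr v
  · -- a pendant vertex
    obtain ⟨x1, ⟨v, dd⟩, hx1⟩ := hpen
    obtain ⟨x0, hx0⟩ : ∃ x0, T.Adj x1 x0 := by
      have hne : ∃ y, y ≠ x1 := by
        by_contra hcon
        push Not at hcon
        exact hns ⟨x1, fun y hy => absurd (hcon y) hy⟩
      obtain ⟨y, hy⟩ := hne
      obtain ⟨p⟩ := hT.connected x1 y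
      have hlen : 0 < p.length := by
        rcases Nat.eq_zero_or_pos p.length with h | h
        · exact absurd (Walk.eq_of_length_eq_zero h).symm hy
        · exact h
      have := p.adj_getVert_succ hlen
      rw [Walk.getVert_zero] at this
      exact ⟨_, this⟩
    obtain ⟨hadj, hcz⟩ := hf x1 x0 hx0
    rw [hx1] at hadj hcz
    have hvB : v ∈ B := hpend (v, dd) _ hadj
    have hGadj := hHG hadj
    obtain ⟨hfx0, hv0⟩ : f x0 = Sum.inl v ∧ R.node v = [] := by
      rcases hfx : f x0 with y | y
      · rw [hfx] at hGadj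
        have h1 : y = v ∧ R.node y = [] := hGadj
        exact ⟨by rw [h1.1], by rw [← h1.1]; exact h1.2⟩
      · rw [hfx] at hGadj
        exact absurd hGadj (fun h => h)
    have hjz : j = z := by
      rw [← hcz, Sym2.eq_swap]
      exact hc2 _ _
    subst hjz
    apply hRep
    refine (hSEQ1 W T hT).2.2.1 m x0 (fun y => ?_)
    obtain ⟨p, hp⟩ := (hT.connected x0 y).exists_isPath
    refine (dist_le p).trans ?_
    by_cases hlen : p.length ≤ 1
    · omega
    push Not at hlen
    have hinj := hp.getVert_injOn
    have hadjg : ∀ i, i < p.length → T.Adj (p.getVert i) (p.getVert (i + 1)) :=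
      fun i hi => p.adj_getVert_succ hi
    have key : ∀ i, i + 1 ≤ p.length → ∃ u u' pos, f (p.getVert (i + 1)) = Sum.inl u ∧
        f (p.getVert i) = Sum.inl u' ∧ R.Up m w u' pos u ∧ col u' pos = j ∧ u ∈ C ∧
        R.lev u = i + 1 := by
      intro i
      induction i with
      | zero =>
        intro _
        have hg0 : f (p.getVert 0) = Sum.inl v := by rw [Walk.getVert_zero]; exact hfx0
        obtain ⟨ha, hca⟩ := hf _ _ (hadjg 0 (by omega))
        rw [hg0] at ha hca
        have hGa := hHG ha
        rcases hf1 : f (p.getVert (0 + 1)) with u | v'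
        · rw [hf1] at hGa hca
          have hGa' : (R.H m w).Adj v u := hGa
          rcases hGa'.2 with ⟨pos, hup⟩ | ⟨pos, hup⟩
          · have hcc : col v pos = j := by rw [← hc1 v pos u hup]; exact hca
            refine ⟨u, v, pos, rfl, hg0, hup, hcc, hCup v (hBC hvB) pos u hup hcc, ?_⟩
            rw [hlev _ _ _ hup]
            unfold Raw.lev
            rw [hv0]
            rfl
          · have := hnode _ _ _ hup
            rw [hv0] at this
            exact absurd this (by simp)
        · exfalso
          obtain ⟨ha2, -⟩ := hf _ _ (hadjg 1 (by omega))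
          rw [hf1] at hGa
          have h1 : v = v'.1 := (show v = v'.1 ∧ R.node v = [] from hGa).1
          have e1 : p.getVert 1 = p.getVert (0 + 1) := rfl
          rw [e1, hf1] at ha2
          have hGa2 := hHG ha2
          rcases hf2 : f (p.getVert (1 + 1)) with y' | y'
          · rw [hf2] at hGa2
            have h2 : y' = v'.1 := (show y' = v'.1 ∧ R.node y' = [] from hGa2).1
            have h3 : f (p.getVert (1 + 1)) = f (p.getVert 0) := by rw [hf2, hg0, h2, h1]
            have h4 := hinj (show (1 + 1) ≤ p.length by omega) (show 0 ≤ p.length by omega)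
              (hfinj h3)
            omega
          · rw [hf2] at hGa2
            exact hGa2
      | succ i ih =>
        intro hi
        obtain ⟨u, u', pos, hfu, hfu', hup, hcc, huC, hlu⟩ := ih (by omega)
        obtain ⟨ha, hca⟩ := hf _ _ (hadjg (i + 1) (by omega))
        rw [hfu] at ha hca
        have hGa := hHG ha
        rcases hf2 : f (p.getVert (i + 1 + 1)) with u2 | v'
        · rw [hf2] at hGa hca
          have hGa' : (R.H m w).Adj u u2 := hGa
          rcases hGa'.2 with ⟨pos2, hup2⟩ | ⟨pos2, hup2⟩
          · have hcc2 : col u pos2 = j := by rw [← hc1 u pos2 u2 hup2]; exact hca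
            refine ⟨u2, u, pos2, rfl, hfu, hup2, hcc2, hCup u huC pos2 u2 hup2 hcc2, ?_⟩
            rw [hlev _ _ _ hup2, hlu]
          · exfalso
            have hcc2 : col u2 pos2 = j := by
              rw [← hc1 u2 pos2 u hup2, Sym2.eq_swap]; exact hca
            have heq : u2 = u' := hCuniq u huC u2 u' pos2 pos hup2 hup hcc2 hcc
            have h3 : f (p.getVert (i + 1 + 1)) = f (p.getVert i) := by rw [hf2, hfu', heq]
            have h4 := hinj (show (i + 1 + 1) ≤ p.length by omega) (show i ≤ p.length by omega)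
              (hfinj h3)
            omega
        · exfalso
          rw [hf2] at hGa
          have h1 : R.node u = [] := (show u = v'.1 ∧ R.node u = [] from hGa).2
          unfold Raw.lev at hlu
          rw [h1] at hlu
          simp at hlu
    obtain ⟨u, -, -, -, -, -, -, -, hlu⟩ := key (p.length - 1) (by omega)
    have := hS.len u
    omega
  · -- no pendant vertex
    push Not at hpen
    have hfl : ∀ x, ∃ v, f x = Sum.inl v := by
      intro x
      rcases hfx : f x with v | v
      · exact ⟨v, rfl⟩
      · exact absurd hfx (hpen x v)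
    choose h hh using hfl
    have hhinj : Function.Injective h := by
      intro a b hab
      apply hfinj
      rw [hh, hh, hab]
    have hadj : ∀ x y, T.Adj x y → (R.H m w).Adj (h x) (h y) := by
      intro x y hxy
      have h1 := hHG (hf x y hxy).1
      rw [hh, hh] at h1
      exact h1
    apply hEmb
    refine ⟨fun x => R.lev (h x), fun x => hS.len _, ?_, ?_⟩
    · intro x y hxy
      rcases (hadj x y hxy).2 with ⟨p, hup⟩ | ⟨p, hup⟩
      · right; exact hlev _ _ _ hup
      · left; exact hlev _ _ _ hup
    · intro x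
      by_cases hemp : {y | T.Adj x y ∧ R.lev (h y) = R.lev (h x) + 1} = ∅
      · rw [hemp]; simp
      obtain ⟨y0, hy0⟩ := Set.nonempty_iff_ne_empty.mpr hemp
      have hpos : ∀ y ∈ {y | T.Adj x y ∧ R.lev (h y) = R.lev (h x) + 1},
          ∃ p, R.Up m w (h x) p (h y) := by
        rintro y ⟨hxy, hly⟩
        rcases (hadj x y hxy).2 with ⟨p, hup⟩ | ⟨p, hup⟩
        · exact ⟨p, hup⟩
        · have := hlev _ _ _ hup
          omega
      obtain ⟨p0, hp0⟩ := hpos y0 hy0
      refine le_trans ?_ (hcol (h x) hp0.1 j)
      refine Set.ncard_le_ncard_of_injOn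
        (fun y => if hy : ∃ p, R.Up m w (h x) p (h y) then hy.choose else 0) ?_ ?_ ?_
      · intro y hy
        have hy' := hpos y hy
        rw [dif_pos hy']
        have hsp := hy'.choose_spec
        refine ⟨hsp.2.1, ?_⟩
        have := (hf x y hy.1).2
        rw [hh, hh, hc1 _ _ _ hsp] at this
        exact this
      · intro a ha b hb hab
        have ha' := hpos a ha
        have hb' := hpos b hb
        simp only at hab
        rw [dif_pos ha', dif_pos hb'] at hab
        have h1 := ha'.choose_spec
        have h2 := hb'.choose_spec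
        apply hhinj
        rw [← h1.2.2, ← h2.2.2, hab]
      · exact (Set.finite_lt_nat _).subset (fun p hp => hp.1)

end H78.AB
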